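import Pool.Agent.P.MP_926cae_lc.Power

/-! The exact value problem for discounted sums is decidable when the discount factor `p / q` is at
most a power of `1 / q` and the weights and the number of digits of the target are small compared
with `q`. -/

namespace Pool.Agent.Results.MP_926cae_lc.PowerDiscount

open Pool.Agent.P.MP_926cae_lc

theorem result : DecidableOn PowerDiscount := decidableOn_powerDiscount

end Pool.Agent.Results.MP_926cae_lc.PowerDiscount
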