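import Pool.Agent.P.MP_926cae_lc.Power

/-! Target discounted sums: when the discount factor `p / q` is at most a power of `1 / q`, rational
targets of bounded height have only eventually periodic solutions. -/

namespace Pool.Agent.Results.MP_926cae_lc.PowerPeriodic

theorem result (p q M : ℕ) (t : ℚ) (u : ℕ → ℕ) (hp : 0 < p) (hpq : p < q) (hc : Nat.Coprime p q)
    (hu : ∀ n, u n ≤ M)
    (hq : (∃ k : ℕ, p ^ (k + 1) ≤ q ^ k ∧ (M + Nat.size (q * t.den)) ^ (200 * (k + 4) ^ 3) ≤ q) ∨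
      900 * p ^ 4 * M ^ 2 * Nat.size q * Nat.size (q ^ 3 * t.den) ≤ q ^ 2)
    (ht : ∑' n, (u n : ℝ) * ((p : ℝ) / (q : ℝ)) ^ n = (t : ℝ)) :
    ∃ n m : ℕ, 0 < m ∧ ∀ k, n ≤ k → u (k + m) = u k :=
  Pool.Agent.P.MP_926cae_lc.periodic_of_range hp hpq hc hu hq ht

end Pool.Agent.Results.MP_926cae_lc.PowerPeriodic
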