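import Pool.Agent.P.MP_926cae_lc.Main

/-! The constraint problem for discounted sums is decidable when the discount factor is large
compared with the lengths of the cycles of the graph. -/

namespace Pool.Agent.Results.MP_926cae_lc.ShortCycles

open Pool.Agent.P.MP_926cae_lc

theorem result : DecidableOn fun x => FewVertices x ∨ ShortCycles x ∨ IntervalSums x :=
  decidableOn_intervalSums.mono fun _ h0 h1 h => h.elim
    (fun h => (h.shortCycles h0 h1).intervalSums h0 h1)
    fun h => h.elim (fun h => h.intervalSums h0 h1) id

end Pool.Agent.Results.MP_926cae_lc.ShortCycles
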